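import Pool.Agent.Helper61.XP.Par
import Pool.Agent.Helper61.XE.Main

/-!
# The mass of the forms which violate the Ramanujan conjecture
-/

set_option autoImplicit false

open scoped ENNReal ComplexConjugate Topology
open MeasureTheory Filter

noncomputable section

namespace Pool.Agent.Helper61.XG

open Pool.Agent.Helper78.DF Pool.Agent.Helper61.XE Pool.Agent.Helper61.XP Pool.Agent.X298.RP

/-- a test function which detects the exceptional forms -/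
theorem test {J : Type} [Fintype J] (μ : Measure (J → ℂ)) [IsProbabilityMeasure μ] {N b m : ℕ}
    {E : Fin N → (J → ℂ) → ℂ} (hEc : ∀ k, Continuous (E k)) (hb : 2 * N ≤ b + 2 * m)
    {ε : ℝ} (hε : 0 < ε) :
    ∃ t : (J → ℂ) → ℝ, Continuous t ∧ (∀ z, 0 ≤ t z) ∧ ∫ z, t z ∂μ ≤ μ.real (Sing N m E) + ε ∧
      ∀ (z : J → ℂ) (V : Type) (P : Parameters V N) (v : V), (P.bad v = 0 ∨ b ≤ P.bad v) →
        (∀ x, ∏ j, (x - P.α v j) = x ^ N + ∑ k, E k z * x ^ (k : ℕ)) →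
        (∃ v' j, ‖P.α v' j‖ ≠ 1) → 1 ≤ t z := by
  have hcl : IsClosed (Sing N m E) := sing_closed hEc
  have hδ : Tendsto (fun n : ℕ => (1 : ℝ) / ((n : ℝ) + 1)) atTop (𝓝 0) :=
    tendsto_one_div_add_atTop_nhds_zero_nat
  have hδpos : ∀ n : ℕ, (0 : ℝ) < 1 / ((n : ℝ) + 1) := fun n => by positivity
  have hlim := tendsto_integral_thickenedIndicator_of_isClosed μ hcl hδpos hδ
  obtain ⟨r, hr⟩ := ((hlim.eventually (gt_mem_nhds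
    (lt_add_of_pos_right (μ.real (Sing N m E)) hε)))).exists
  refine ⟨fun z => (thickenedIndicator (hδpos r) (Sing N m E) z : ℝ),
    NNReal.continuous_coe.comp (thickenedIndicator (hδpos r) (Sing N m E)).continuous,
    fun z => NNReal.coe_nonneg _, hr.le, ?_⟩
  rintro z V P v hbad hpol ⟨v', j, hv'⟩
  have h9 : z ∈ Sing N m E := by
    by_contra hcon
    exact hv' (cert hcon hb P v hbad hpol v' j)
  have h10 : thickenedIndicator (hδpos r) (Sing N m E) z = 1 :=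
    thickenedIndicator_one_of_mem_closure _ _ (subset_closure h9)
  simp only
  rw [h10]
  simp

variable {G : Type} [Group G] {A : Type} [CommRing A] {ι : Type} [Fintype ι] {k : ι → Type}
    [∀ v, NormedField (k v)] [∀ v, IsUltrametricDist (k v)] {emb : ∀ v, A →+* k v}
    {n : ℕ} {ρ : G →* GLS n k} {K : Subgroup G} {J : Type} [Fintype J] {φ : J → G → ℝ}
    {Q Q' : J → ι → ℝ} {h h' : ι → ℝ} {c a : GLS n k} {V : Set (GLS n k)}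
    {Δ₀ : Subgroup G} {f : G ⧸ K → ℂ}

open Classical in
/-- The main theorem of `XE` with the statement on the exceptional forms. -/
theorem main2 (hA : IsSInt emb) (hρ : Function.Injective ρ) (hK : ∀ κ ∈ K, Bdd (ρ κ) fun _ => 1)
    (hφ : ∀ j, IsHecke K (φ j)) (hQ : ∀ j, SizeBd ρ (φ j) (Q j) (Q' j))
    (hQ1 : ∀ j v, 1 ≤ Q j v ∧ 1 ≤ Q' j v) (hV : Kind V a) {d : A} (hc : HasDen emb c d)
    (hh : ∀ v, 0 < h v ∧ 0 < h' v ∧ 1 ≤ h v * h' v)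
    (hΔ₀ : ∀ γ, γ ∈ Δ₀ ↔ γ ∈ prin ρ emb ⊤ ∧ c⁻¹ * ρ γ * c ∈ V)
    (hf : IsPer ρ K Δ₀ V c a h h' f) {H : ℝ}
    (hH : H = (∏ v, (h v * h' v)) * Nat.card (A ⧸ Ideal.span {d})) :
    ∃ μ : Measure (J → ℂ), IsProbabilityMeasure μ ∧
      ((∀ N : ℕ, ∃ (𝔫 : Ideal A) (I : Type) (_ : Fintype I) (F : I → G ⧸ K → ℂ)
        (lam : I → J → ℂ), N ≤ Nat.card (A ⧸ 𝔫) ∧ IsSys ρ emb K Δ₀ φ f 𝔫 F lam) →
          ∀ᵐ z ∂μ, ∀ j, ‖z j‖ ≤ hnorm K (φ j)) ∧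
      (∀ (𝔫 : Ideal A) (I : Type) [Fintype I] (F : I → G ⧸ K → ℂ) (lam : I → J → ℂ),
        IsSys ρ emb K Δ₀ φ f 𝔫 F lam → ∀ L L' : List J,
        H * ((L.map fun j => ∏ v, Q j v).prod * (L'.map fun j => ∏ v, Q' j v).prod) <
          Nat.card (A ⧸ 𝔫) →
        ∑ i, (L.map (lam i)).prod * conj (L'.map (lam i)).prod *
            ((‖ip (prin ρ emb 𝔫 ⊓ Δ₀) (F i) f‖ ^ 2 : ℝ) : ℂ) =
          ip (prin ρ emb 𝔫 ⊓ Δ₀) (heckes K φ L f) (heckes K φ L' f) ∧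
        ip (prin ρ emb 𝔫 ⊓ Δ₀) (heckes K φ L f) (heckes K φ L' f) =
          (∫ z, (L.map z).prod * conj (L'.map z).prod ∂μ) *
            (nsq (prin ρ emb 𝔫 ⊓ Δ₀) f : ℂ)) ∧
      (∀ t : (J → ℂ) → ℝ, Continuous t → ∀ ε : ℝ, 0 < ε → ∃ N : ℕ,
        ∀ (𝔫 : Ideal A) (I : Type) [Fintype I] (F : I → G ⧸ K → ℂ) (lam : I → J → ℂ),
        IsSys ρ emb K Δ₀ φ f 𝔫 F lam → N ≤ Nat.card (A ⧸ 𝔫) →
        |(∑ i, t (lam i) * ‖ip (prin ρ emb 𝔫 ⊓ Δ₀) (F i) f‖ ^ 2) /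
          nsq (prin ρ emb 𝔫 ⊓ Δ₀) f - ∫ z, t z ∂μ| ≤ ε) ∧
      ∀ (N b m : ℕ) (E : Fin N → (J → ℂ) → ℂ), (∀ k, Continuous (E k)) →
        2 * N ≤ b + 2 * m → ∀ ε : ℝ, 0 < ε → ∃ N₀ : ℕ,
        ∀ (𝔫 : Ideal A) (I : Type) [Fintype I] (F : I → G ⧸ K → ℂ) (lam : I → J → ℂ),
        IsSys ρ emb K Δ₀ φ f 𝔫 F lam → N₀ ≤ Nat.card (A ⧸ 𝔫) →
        ∀ (X : I → Type) (P : ∀ i, Parameters (X i) N) (x : ∀ i, X i),
        (∀ i, (P i).bad (x i) = 0 ∨ b ≤ (P i).bad (x i)) →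
        (∀ i z, ∏ j, (z - (P i).α (x i) j) = z ^ N + ∑ k, E k (lam i) * z ^ (k : ℕ)) →
        (∑ i, if ∃ y j, ‖(P i).α y j‖ ≠ 1 then ‖ip (prin ρ emb 𝔫 ⊓ Δ₀) (F i) f‖ ^ 2 else 0) ≤
          (μ.real (Sing N m E) + ε) * nsq (prin ρ emb 𝔫 ⊓ Δ₀) f := by
  obtain ⟨μ, h1, h2, h3, h4⟩ := main hA hρ hK hφ hQ hQ1 hV hc hh hΔ₀ hf hH
  refine ⟨μ, h1, h2, h3, h4, ?_⟩
  intro N b m E hE hb ε hε
  obtain ⟨t, t1, t2, t3, t4⟩ := test μ hE hb (half_pos hε)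
  obtain ⟨N₁, hN₁⟩ := h4 t t1 (ε / 2) (half_pos hε)
  refine ⟨max N₁ 1, fun 𝔫 I _ F lam hs hN X P x hbad hpol => ?_⟩
  have h5 := hN₁ 𝔫 I F lam hs ((le_max_left _ _).trans hN)
  have hfin : Finite (A ⧸ 𝔫) := by
    refine Nat.finite_of_card_ne_zero ?_
    have := (le_max_right N₁ 1).trans hN
    omega
  have h6 : 0 < nsq (prin ρ emb 𝔫 ⊓ Δ₀) f := by
    rw [level_nsq hA hρ hK hφ hΔ₀ hf 𝔫]
    refine mul_pos ?_ (nsq_pos hA hρ hK hΔ₀ hf)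
    exact_mod_cast Nat.pos_of_ne_zero (idx_level hΔ₀ 𝔫)
  have h7 : (∑ i, t (lam i) * ‖ip (prin ρ emb 𝔫 ⊓ Δ₀) (F i) f‖ ^ 2) /
      nsq (prin ρ emb 𝔫 ⊓ Δ₀) f ≤ μ.real (Sing N m E) + ε := by
    have := (abs_le.1 h5).2
    linarith
  rw [div_le_iff₀ h6] at h7
  refine le_trans (Finset.sum_le_sum fun i _ => ?_) h7
  split_ifs with h8
  · have h9 := t4 (lam i) (X i) (P i) (x i) (hbad i) (hpol i) h8
    nlinarith [sq_nonneg ‖ip (prin ρ emb 𝔫 ⊓ Δ₀) (F i) f‖]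
  · exact mul_nonneg (t2 _) (sq_nonneg _)

end Pool.Agent.Helper61.XG
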